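import Pool.Agent.H529R3.Hoeff
import Pool.Agent.H430R3.LD.Stmts

set_option autoImplicit false

namespace H529R3.LD

open Finset Pool.Agent.H430R3.LD

theorem taskH : TaskH := by
  intro U C J _ _ _ _ f p d hp0 hd hp hM
  classical
  by_cases hJ : 0 < Fintype.card J
  · obtain ⟨g, hg⟩ := H529R3.Hoeff.exists_coloring f p d hp0 hd hJ hp (by
      have : 2 * (Fintype.card C : ℝ) * Real.exp (-(d ^ 2 / (2 * p)))
        = (Fintype.card C : ℝ) * (2 * Real.exp (-(d ^ 2 / (2 * p)))) := by ring
      rw [this]; exact hM)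
    refine ⟨g, fun c => ?_⟩
    have := hg c
    simpa [H529R3.Hoeff.sg] using this
  · have h0 : Fintype.card J = 0 := by omega
    have : IsEmpty J := Fintype.card_eq_zero_iff.mp h0
    exact ⟨fun _ => true, fun c => by simp⟩

end H529R3.LD
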