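import Pool.Agent.H430R3.LD.StmtsB

/-! Numbers for TaskB of the S12181 project. -/

set_option autoImplicit false

namespace H529R3.LD

open Pool.Agent.H430R3.LD

theorem central_sq (n : ℕ) : (3 * n + 1) * (Nat.centralBinom n) ^ 2 ≤ 16 ^ n := by
  induction n with
  | zero => simp
  | succ n ih =>
    have h := Nat.succ_mul_centralBinom_succ n
    have h2 : (n + 1) ^ 2 * (Nat.centralBinom (n + 1)) ^ 2 =
        4 * (2 * n + 1) ^ 2 * (Nat.centralBinom n) ^ 2 := by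
      rw [← mul_pow, h]
      ring
    have h3 : (n + 1) ^ 2 * ((3 * (n + 1) + 1) * (Nat.centralBinom (n + 1)) ^ 2) ≤
        (n + 1) ^ 2 * 16 ^ (n + 1) := by
      calc (n + 1) ^ 2 * ((3 * (n + 1) + 1) * (Nat.centralBinom (n + 1)) ^ 2)
          = (3 * n + 4) * ((n + 1) ^ 2 * (Nat.centralBinom (n + 1)) ^ 2) := by ring
        _ = (3 * n + 4) * (4 * (2 * n + 1) ^ 2) * (Nat.centralBinom n) ^ 2 := by
            rw [h2]; ring
        _ ≤ (16 * (n + 1) ^ 2 * (3 * n + 1)) * (Nat.centralBinom n) ^ 2 := by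
            apply Nat.mul_le_mul_right
            nlinarith [Nat.zero_le n]
        _ = 16 * (n + 1) ^ 2 * ((3 * n + 1) * (Nat.centralBinom n) ^ 2) := by ring
        _ ≤ 16 * (n + 1) ^ 2 * 16 ^ n := Nat.mul_le_mul_left _ ih
        _ = (n + 1) ^ 2 * 16 ^ (n + 1) := by ring
    exact Nat.le_of_mul_le_mul_left h3 (by positivity)

theorem central_le (a : ℕ) : (a : ℝ) * (Nat.centralBinom (a ^ 2) : ℝ) ≤ 4 ^ (a ^ 2) := by
  have h := central_sq (a ^ 2)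
  have h' : (3 * ((a : ℝ) ^ 2) + 1) * (Nat.centralBinom (a ^ 2) : ℝ) ^ 2 ≤ 16 ^ (a ^ 2) := by
    exact_mod_cast h
  have h16 : (16 : ℝ) ^ (a ^ 2) = (4 ^ (a ^ 2)) ^ 2 := by
    rw [← pow_mul, mul_comm, pow_mul]; norm_num
  refine le_of_sq_le_sq ?_ (by positivity)
  rw [← h16]
  refine le_trans ?_ h'
  rw [mul_pow]
  apply mul_le_mul_of_nonneg_right _ (by positivity)
  nlinarith [sq_nonneg (a : ℝ)]

theorem bern_one (a q : ℕ) (hq : 2 * a ^ 2 + 5 ≤ q) :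
    (a : ℝ) * (10 ^ q * 2 ^ (4 * q)) ≤ 2 ^ (8 * q) := by
  have hb : 1 + (q : ℝ) * (3 / 5) ≤ (1 + 3 / 5 : ℝ) ^ q :=
    one_add_mul_le_pow (by norm_num) q
  have hq' : 2 * (a : ℝ) ^ 2 + 5 ≤ q := by exact_mod_cast hq
  have ha : (a : ℝ) ≤ (8 / 5 : ℝ) ^ q := by
    have : (1 + 3 / 5 : ℝ) = 8 / 5 := by norm_num
    rw [this] at hb
    nlinarith [sq_nonneg ((a : ℝ) - 1), sq_nonneg (a : ℝ)]
  have e1 : (10 : ℝ) ^ q * 2 ^ (4 * q) = 160 ^ q := by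
    rw [pow_mul, ← mul_pow]; norm_num
  have e2 : (2 : ℝ) ^ (8 * q) = (8 / 5) ^ q * 160 ^ q := by
    rw [pow_mul, ← mul_pow]; norm_num
  rw [e1, e2]
  exact mul_le_mul_of_nonneg_right ha (by positivity)

theorem bern_two (a : ℕ) :
    (a : ℝ) * (2 * (a : ℝ) ^ 2 * (3 * 2 ^ (4 * a ^ 2 + 3)) ^ (6 * a ^ 3)) ≤
      2 ^ ((6 * a ^ 3) * (4 * a ^ 2 + 5)) := by
  have hb : 1 + ((6 * a ^ 3 : ℕ) : ℝ) * (1 / 3) ≤ (1 + 1 / 3 : ℝ) ^ (6 * a ^ 3) :=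
    one_add_mul_le_pow (by norm_num) _
  have h43 : (1 + 1 / 3 : ℝ) = 4 / 3 := by norm_num
  rw [h43] at hb
  push_cast at hb
  have e1 : (2 : ℝ) ^ ((6 * a ^ 3) * (4 * a ^ 2 + 5)) =
      (4 / 3) ^ (6 * a ^ 3) * (3 * 2 ^ (4 * a ^ 2 + 3)) ^ (6 * a ^ 3) := by
    rw [mul_comm (6 * a ^ 3) (4 * a ^ 2 + 5), pow_mul, ← mul_pow]
    congr 1
    rw [show 4 * a ^ 2 + 5 = (4 * a ^ 2 + 3) + 2 by ring, pow_add]
    ring
  rw [e1, ← mul_assoc]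
  apply mul_le_mul_of_nonneg_right _ (by positivity)
  nlinarith

theorem block_le (a q : ℕ) (hq : 2 * a ^ 2 + 5 ≤ q) :
    (a : ℝ) * (BlockA a q (6 * a ^ 3) : ℝ) ≤
      4 * 2 ^ (2 * a ^ 2 + (8 * q + (6 * a ^ 3) * (4 * a ^ 2 + 5))) := by
  unfold BlockA
  push_cast
  have h1 := central_le a
  have h2 := bern_one a q hq
  have h3 := bern_two a
  rw [show (4 : ℝ) ^ (a ^ 2) = 2 ^ (2 * a ^ 2) by rw [pow_mul]; norm_num] at h1
  rw [pow_add (2 : ℝ) (2 * a ^ 2), pow_add (2 : ℝ) (8 * q), pow_add (2 : ℝ) (4 * q)]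
  have hG : (0 : ℝ) < 2 ^ (2 * a ^ 2) := by positivity
  generalize (2 : ℝ) ^ (2 * a ^ 2) = G at *
  have hE : (0 : ℝ) < 2 ^ (8 * q) := by positivity
  generalize (2 : ℝ) ^ (8 * q) = E at *
  have hF : (0 : ℝ) < 2 ^ ((6 * a ^ 3) * (4 * a ^ 2 + 5)) := by positivity
  generalize (2 : ℝ) ^ ((6 * a ^ 3) * (4 * a ^ 2 + 5)) = F at *
  generalize ((3 : ℝ) * 2 ^ (4 * a ^ 2 + 3)) ^ (6 * a ^ 3) = K at *
  generalize (Nat.centralBinom (a ^ 2) : ℝ) = C at *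
  generalize (2 : ℝ) ^ (4 * q) = P at *
  generalize (10 : ℝ) ^ q = Q at *
  have t1 : (E * F) * ((a : ℝ) * C) ≤ (E * F) * G :=
    mul_le_mul_of_nonneg_left h1 (by positivity)
  have t2 : (2 * F * G) * ((a : ℝ) * (Q * P)) ≤ (2 * F * G) * E :=
    mul_le_mul_of_nonneg_left h2 (by positivity)
  have t3 : (E * G) * ((a : ℝ) * (2 * (a : ℝ) ^ 2 * K)) ≤ (E * G) * F :=
    mul_le_mul_of_nonneg_left h3 (by positivity)
  calc _ = (E * F) * ((a : ℝ) * C) + (2 * F * G) * ((a : ℝ) * (Q * P)) +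
        (E * G) * ((a : ℝ) * (2 * (a : ℝ) ^ 2 * K)) := by ring
    _ ≤ (E * F) * G + (2 * F * G) * E + (E * G) * F := by linarith
    _ = _ := by ring

theorem exists_root (k : ℕ) (b : ℕ) (hk : (b + 1) ^ 6 ≤ k) :
    ∃ a : ℕ, b ≤ a ∧ a ^ 6 ≤ k ∧ k ≤ (2 * a) ^ 6 := by
  have hex : ∃ a : ℕ, k < (a + 1) ^ 6 := ⟨k, by
    calc k < k + 1 := by omega
      _ ≤ (k + 1) ^ 6 := Nat.le_self_pow (by norm_num) _⟩
  classical
  obtain ⟨a, ha, hmin⟩ : ∃ a, k < (a + 1) ^ 6 ∧ ∀ c < a, ¬ k < (c + 1) ^ 6 :=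
    ⟨Nat.find hex, Nat.find_spec hex, fun c hc => Nat.find_min hex hc⟩
  have hba : b + 1 ≤ a := by
    by_contra hcon
    push Not at hcon
    have : (a + 1) ^ 6 ≤ (b + 1) ^ 6 := Nat.pow_le_pow_left (by omega) 6
    omega
  refine ⟨a, by omega, ?_, ?_⟩
  · have := hmin (a - 1) (by omega)
    rw [show a - 1 + 1 = a by omega] at this
    omega
  · have : (a + 1) ^ 6 ≤ (2 * a) ^ 6 := Nat.pow_le_pow_left (by omega) 6
    omega

theorem taskBN : TaskBN := by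
  refine ⟨480, 60, by norm_num, (6721 + 1) ^ 6, ?_⟩
  intro k hk h hh
  obtain ⟨a, hba, hak, hka⟩ := exists_root k 6721 hk
  have hB : 60 * (2 * a ^ 2 + (8 * (h + 2 * a ^ 2 + 5) + 6 * a ^ 3 * (4 * a ^ 2 + 5))) ≤
      2 * k := by
    have h1 : 60 * (18 * a ^ 2 + 40 + 24 * a ^ 5 + 30 * a ^ 3) ≤ a ^ 6 := by
      have e : a ^ 6 = a * a ^ 5 := by ring
      have h5 : 6721 * a ^ 5 ≤ a * a ^ 5 := Nat.mul_le_mul_right _ hba
      have h2 : a ^ 2 ≤ a ^ 5 := Nat.pow_le_pow_right (by omega) (by norm_num)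
      have h3 : a ^ 3 ≤ a ^ 5 := Nat.pow_le_pow_right (by omega) (by norm_num)
      have h0 : 1 ≤ a ^ 5 := Nat.one_le_pow _ _ (by omega)
      omega
    have e2 : 2 * a ^ 2 + (8 * (h + 2 * a ^ 2 + 5) + 6 * a ^ 3 * (4 * a ^ 2 + 5)) =
        (18 * a ^ 2 + 40 + 24 * a ^ 5 + 30 * a ^ 3) + 8 * h := by ring
    rw [e2]
    omega
  refine ⟨a, h + 2 * a ^ 2 + 5, 6 * a ^ 3, by omega, hB, ?_⟩
  have hbl := block_le a (h + 2 * a ^ 2 + 5) (by omega)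
  generalize (BlockA a (h + 2 * a ^ 2 + 5) (6 * a ^ 3)) = A at *
  generalize (2 * a ^ 2 + (8 * (h + 2 * a ^ 2 + 5) + 6 * a ^ 3 * (4 * a ^ 2 + 5))) = B at *
  have ha0 : (0 : ℝ) < a := by exact_mod_cast (by omega : 0 < a)
  have hkpos : 0 < k := by
    have : 0 < (6721 + 1) ^ 6 := by norm_num
    omega
  have hk0 : (0 : ℝ) < k := by exact_mod_cast hkpos
  have hc : ((2 * k).choose k : ℝ) = (Nat.centralBinom k : ℝ) := by
    rw [Nat.centralBinom_eq_two_mul_choose]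
  have hcb : (4 : ℝ) ^ k ≤ 2 * k * (Nat.centralBinom k : ℝ) := by
    exact_mod_cast Nat.four_pow_le_two_mul_self_mul_centralBinom k hkpos
  have hp : ((a : ℝ) * (A : ℝ)) ^ 60 ≤ (4 * 2 ^ B) ^ 60 :=
    pow_le_pow_left₀ (by positivity) hbl 60
  have hsplit : (2 : ℝ) ^ (60 * B) * 2 ^ (2 * k - 60 * B) = 4 ^ k := by
    rw [← pow_add, Nat.add_sub_cancel' hB, pow_mul]
    norm_num
  have hnum : (4 : ℝ) ^ 60 * (2 * (k : ℝ) ^ 6) ≤ (a : ℝ) ^ 60 := by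
    have h1 : (k : ℝ) ≤ (2 * a) ^ 6 := by exact_mod_cast hka
    have h2 : (k : ℝ) ^ 6 ≤ ((2 * a) ^ 6) ^ 6 := pow_le_pow_left₀ hk0.le h1 6
    have h3 : (6721 : ℝ) ≤ a := by exact_mod_cast hba
    have h4 : (6721 : ℝ) ^ 24 ≤ (a : ℝ) ^ 24 := pow_le_pow_left₀ (by norm_num) h3 24
    have h5 : (4 : ℝ) ^ 60 * 2 * 2 ^ 36 ≤ (a : ℝ) ^ 24 := le_trans (by norm_num) h4
    calc (4 : ℝ) ^ 60 * (2 * (k : ℝ) ^ 6) ≤ (4 : ℝ) ^ 60 * (2 * ((2 * a) ^ 6) ^ 6) := by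
          apply mul_le_mul_of_nonneg_left _ (by positivity)
          linarith
      _ = ((4 : ℝ) ^ 60 * 2 * 2 ^ 36) * (a : ℝ) ^ 36 := by ring
      _ ≤ (a : ℝ) ^ 24 * (a : ℝ) ^ 36 := mul_le_mul_of_nonneg_right h5 (by positivity)
      _ = (a : ℝ) ^ 60 := by ring
  rw [hc]
  generalize (Nat.centralBinom k : ℝ) = C at *
  have hC : 0 ≤ C := by
    by_contra hcon
    push Not at hcon
    have : (0 : ℝ) < 4 ^ k := by positivity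
    have h2 : 2 * (k : ℝ) * C ≤ 0 := by
      apply mul_nonpos_of_nonneg_of_nonpos (by positivity) hcon.le
    linarith
  have hkey : (a : ℝ) ^ 60 * ((A : ℝ) ^ 60 * 2 ^ (2 * k - 60 * B) * (k : ℝ) ^ 5) ≤
      (a : ℝ) ^ 60 * C := by
    calc (a : ℝ) ^ 60 * ((A : ℝ) ^ 60 * 2 ^ (2 * k - 60 * B) * (k : ℝ) ^ 5)
        = ((a : ℝ) * (A : ℝ)) ^ 60 * (2 ^ (2 * k - 60 * B) * (k : ℝ) ^ 5) := by
          rw [mul_pow]; ring
      _ ≤ (4 * 2 ^ B) ^ 60 * (2 ^ (2 * k - 60 * B) * (k : ℝ) ^ 5) :=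
          mul_le_mul_of_nonneg_right hp (by positivity)
      _ = (4 : ℝ) ^ 60 * ((2 : ℝ) ^ (60 * B) * 2 ^ (2 * k - 60 * B)) * (k : ℝ) ^ 5 := by
          rw [mul_pow, mul_comm 60 B, pow_mul 2 B 60]; ring
      _ = (4 : ℝ) ^ 60 * (4 : ℝ) ^ k * (k : ℝ) ^ 5 := by rw [hsplit]
      _ ≤ (4 : ℝ) ^ 60 * (2 * k * C) * (k : ℝ) ^ 5 := by
          apply mul_le_mul_of_nonneg_right _ (by positivity)
          exact mul_le_mul_of_nonneg_left hcb (by positivity)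
      _ = ((4 : ℝ) ^ 60 * (2 * (k : ℝ) ^ 6)) * C := by ring
      _ ≤ (a : ℝ) ^ 60 * C := mul_le_mul_of_nonneg_right hnum hC
  exact le_of_mul_le_mul_left hkey (by positivity)

end H529R3.LD
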