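import Mathlib

set_option autoImplicit false

namespace H529R3.LD

/-- the numerical condition of the union bound -/
theorem taskN (δ : ℝ) (hδ : 0 < δ) : ∃ k₁ : ℕ, ∀ k : ℕ, k₁ ≤ k → ∀ h : ℕ, h ≤ k →
    (((2 * k : ℕ) : ℝ) ^ ((2 * k) * (2 * k))) ^ h *
      (2 * Real.exp (-(δ ^ 2 / (2 * (1 / (k : ℝ) ^ 5))))) < 1 := by
  obtain ⟨k₁, hk₁⟩ := exists_nat_gt (18 / δ ^ 2)
  refine ⟨k₁ + 1, fun k hk h hh => ?_⟩
  have hkpos : (1 : ℝ) ≤ k := by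
    have : 1 ≤ k := by omega
    exact_mod_cast this
  have hk18 : 18 < δ ^ 2 * k := by
    have h1 : (k₁ : ℝ) ≤ k := by
      have : k₁ ≤ k := by omega
      exact_mod_cast this
    have h2 : 18 / δ ^ 2 < k := lt_of_lt_of_le hk₁ h1
    have h3 : 0 < δ ^ 2 := by positivity
    rw [div_lt_iff₀ h3] at h2
    linarith
  have hx : ((2 * k : ℕ) : ℝ) ≤ Real.exp (2 * k) := by
    have := Real.add_one_le_exp (2 * (k : ℝ))
    push_cast
    linarith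
  have hx0 : (0 : ℝ) ≤ ((2 * k : ℕ) : ℝ) := by positivity
  have h1 : (((2 * k : ℕ) : ℝ) ^ ((2 * k) * (2 * k))) ^ h ≤ Real.exp (8 * (k : ℝ) ^ 4) := by
    rw [← pow_mul]
    calc ((2 * k : ℕ) : ℝ) ^ ((2 * k) * (2 * k) * h)
        ≤ (Real.exp (2 * k)) ^ ((2 * k) * (2 * k) * h) :=
          pow_le_pow_left₀ hx0 hx _
      _ = Real.exp ((((2 * k) * (2 * k) * h : ℕ) : ℝ) * (2 * k)) := by
          rw [← Real.exp_nat_mul]
      _ ≤ Real.exp (8 * (k : ℝ) ^ 4) := by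
          apply Real.exp_le_exp.mpr
          push_cast
          have hhk : (h : ℝ) ≤ k := by exact_mod_cast hh
          have : (k : ℝ) ^ 3 * h ≤ (k : ℝ) ^ 3 * k :=
            mul_le_mul_of_nonneg_left hhk (by positivity)
          nlinarith
  have h2 : (2 : ℝ) ≤ Real.exp 1 := by
    have := Real.add_one_le_exp (1 : ℝ)
    linarith
  have h3 : δ ^ 2 / (2 * (1 / (k : ℝ) ^ 5)) = δ ^ 2 * (k : ℝ) ^ 5 / 2 := by
    field_simp
  rw [h3]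
  have h4 : 8 * (k : ℝ) ^ 4 + 1 < δ ^ 2 * (k : ℝ) ^ 5 / 2 := by
    have h5 : (1 : ℝ) ≤ (k : ℝ) ^ 4 := one_le_pow₀ hkpos
    have h6 : 18 * (k : ℝ) ^ 4 < (δ ^ 2 * k) * (k : ℝ) ^ 4 :=
      mul_lt_mul_of_pos_right hk18 (by positivity)
    nlinarith
  calc (((2 * k : ℕ) : ℝ) ^ ((2 * k) * (2 * k))) ^ h *
      (2 * Real.exp (-(δ ^ 2 * (k : ℝ) ^ 5 / 2)))
      ≤ Real.exp (8 * (k : ℝ) ^ 4) * (Real.exp 1 * Real.exp (-(δ ^ 2 * (k : ℝ) ^ 5 / 2))) := by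
        apply mul_le_mul h1 _ (by positivity) (by positivity)
        exact mul_le_mul_of_nonneg_right h2 (Real.exp_pos _).le
    _ = Real.exp (8 * (k : ℝ) ^ 4 + 1 - δ ^ 2 * (k : ℝ) ^ 5 / 2) := by
        rw [← Real.exp_add, ← Real.exp_add]; congr 1; ring
    _ < 1 := by
        rw [Real.exp_lt_one_iff]
        linarith

end H529R3.LD
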